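import Pool.Agent.H58.RHC.Cmp

/-!
# Compression of residue classes to large moduli, shifted

Digits in base `R = L K`, classes `x_q + s`, and the average over the shift `s`.
-/

set_option autoImplicit false

open Finset

namespace RHC

/-- Number of values of `d (R + k - d)`. -/
theorem VV_card2 {R : ℕ} {k : ℤ} (hk : k.natAbs ≤ R) : (VV R k).card ≤ (R + k.natAbs) / 2 + 1 := by
  have hsub : VV R k ⊆ (range ((((R : ℤ) + k) / 2 + 1).toNat) ∪
      Ioo (((R : ℤ) + k).toNat) R).image (fun d : ℕ => (d : ℤ) * ((R : ℤ) + k - d)) := by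
    intro v hv
    unfold VV at hv
    rw [mem_image] at hv ⊢
    obtain ⟨d, hd, rfl⟩ := hv
    rw [mem_range] at hd
    by_cases h1 : (2 * d : ℤ) ≤ (R : ℤ) + k
    · refine ⟨d, ?_, rfl⟩
      rw [mem_union, mem_range]
      left
      omega
    · by_cases h2 : (d : ℤ) ≤ (R : ℤ) + k
      · refine ⟨((R : ℤ) + k - d).toNat, ?_, ?_⟩
        · rw [mem_union, mem_range]
          left
          omega
        · have h3 : ((((R : ℤ) + k - d).toNat : ℕ) : ℤ) = (R : ℤ) + k - d :=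
            Int.toNat_of_nonneg (by linarith)
          rw [h3]
          ring
      · refine ⟨d, ?_, rfl⟩
        rw [mem_union, mem_Ioo]
        right
        omega
  refine (card_le_card hsub).trans (card_image_le.trans ((card_union_le _ _).trans ?_))
  rw [card_range, Nat.card_Ioo]
  omega

/-- The integers of the classes `x_q` modulo `q`, `q ≥ y / K`, in `(-y, y]`. -/
noncomputable def UZ (R K J y : ℕ) : Finset ℤ :=
  (Ioc (-(y : ℤ)) y).filter
    (fun m => ∃ k ∈ Icc (-((2 * K : ℕ) : ℤ)) (2 * K : ℕ), m ∈ EE R J k (2 * y / max 1 k.natAbs))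

theorem UZ_sub (R K J y : ℕ) : UZ R K J y ⊆ Ioc (-(y : ℤ)) y := filter_subset _ _

theorem UZ_class {R K J y : ℕ} (hR : 2 ≤ R) (hy : R ^ (J + 1) ≤ 2 * y) {q s n : ℕ}
    (hq : y ≤ K * q) (hqy : q ≤ y) (hs : s < y) (hn : n ∈ Icc 1 y)
    (h : n ≡ xx R J q + s [MOD q]) : (n : ℤ) - s ∈ UZ R K J y := by
  have hn' := mem_Icc.mp hn
  have hx : 2 * xx R J q ≤ R ^ (J + 1) := xx_le hR J q
  have hxy : xx R J q ≤ y := by omega
  have hq0 : 0 < q := by
    rcases Nat.eq_zero_or_pos q with h0 | h0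
    · subst h0; omega
    · exact h0
  obtain ⟨k, hk⟩ := (Nat.modEq_iff_dvd.mp h.symm)
  have hn2 : (n : ℤ) - s = (xx R J q : ℤ) + k * q := by
    push_cast at hk
    linarith
  have habs : |k| * q ≤ 2 * y := by
    have h1 : |k * q| ≤ 2 * y := by
      have h2 : k * q = (n : ℤ) - s - xx R J q := by linarith
      have e1 : (xx R J q : ℤ) ≤ y := by exact_mod_cast hxy
      have e2 : (0 : ℤ) ≤ xx R J q := by positivity
      have e3 : (n : ℤ) ≤ y := by exact_mod_cast hn'.2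
      have e4 : (s : ℤ) ≤ y := by exact_mod_cast hs.le
      have e5 : (0 : ℤ) ≤ n := by positivity
      have e6 : (0 : ℤ) ≤ s := by positivity
      rw [h2, abs_le]
      constructor <;> linarith
    rwa [abs_mul, abs_of_nonneg (by positivity : (0 : ℤ) ≤ (q : ℤ))] at h1
  have hkK : |k| ≤ ((2 * K : ℕ) : ℤ) := by
    have h1 : (y : ℤ) ≤ K * q := by exact_mod_cast hq
    have h2 : |k| * q ≤ ((2 * K : ℕ) : ℤ) * q := by
      push_cast
      linarith
    exact le_of_mul_le_mul_right h2 (by exact_mod_cast hq0)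
  unfold UZ
  rw [mem_filter]
  refine ⟨?_, k, mem_Icc.mpr (abs_le.mp hkK), ?_⟩
  · rw [mem_Ioc]
    omega
  · unfold EE
    rw [mem_image]
    refine ⟨q, ?_, hn2.symm⟩
    rw [mem_range]
    apply Nat.lt_succ_of_le
    rw [Nat.le_div_iff_mul_le (by omega)]
    rcases Nat.eq_zero_or_pos k.natAbs with h0 | h0
    · rw [h0]
      simp only [zero_le_one, Nat.max_eq_left, max_eq_left, mul_one]
      omega
    · have h1 : max 1 k.natAbs = k.natAbs := by omega
      rw [h1]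
      have h2 : ((q * k.natAbs : ℕ) : ℤ) ≤ ((2 * y : ℕ) : ℤ) := by
        push_cast
        rw [mul_comm]
        exact habs
      exact_mod_cast h2

theorem UZ_card {R K J y V : ℕ} (hK : 1 ≤ K) (hR : 8 * K ≤ R) (hV : (R + 2 * K) / 2 + 1 ≤ V)
    (hy : R ^ (J + 1) ≤ 2 * y) :
    ((UZ R K J y).card : ℝ) ≤ ((V : ℝ) / R) ^ J * y * (8 + 4 * Real.log ((2 * K : ℕ) : ℝ)) := by
  classical
  have hR0 : (0 : ℝ) < R := by
    have : 0 < R := by omega
    exact_mod_cast this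
  have hsub : UZ R K J y ⊆ (Icc (-((2 * K : ℕ) : ℤ)) (2 * K : ℕ)).biUnion
      (fun k => EE R J k (2 * y / max 1 k.natAbs)) := by
    intro m hm
    unfold UZ at hm
    rw [mem_filter] at hm
    obtain ⟨_, k, hk, hmk⟩ := hm
    rw [mem_biUnion]
    exact ⟨k, hk, hmk⟩
  have h1 : (UZ R K J y).card ≤ ∑ k ∈ Icc (-((2 * K : ℕ) : ℤ)) (2 * K : ℕ),
      V ^ J * (2 * y / max 1 k.natAbs / R ^ J + 1) := by
    refine (card_le_card hsub).trans (card_biUnion_le.trans (sum_le_sum fun k hk => ?_))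
    rw [mem_Icc] at hk
    have hk2 : k.natAbs ≤ 2 * K := by omega
    refine EE_card (by omega) ((VV_card2 (by omega)).trans ?_) J _
    omega
  have h2 : ((UZ R K J y).card : ℝ) ≤ ∑ k ∈ Icc (-((2 * K : ℕ) : ℤ)) (2 * K : ℕ),
      (((V : ℝ) / R) ^ J * (2 * y) * (1 / ((max 1 k.natAbs : ℕ) : ℝ)) + (V : ℝ) ^ J) := by
    have h1' : ((UZ R K J y).card : ℝ) ≤ ((∑ k ∈ Icc (-((2 * K : ℕ) : ℤ)) (2 * K : ℕ),
      V ^ J * (2 * y / max 1 k.natAbs / R ^ J + 1) : ℕ) : ℝ) := by exact_mod_cast h1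
    refine h1'.trans ?_
    push_cast
    apply sum_le_sum
    intro k _
    have hRJ : (0 : ℝ) < (R : ℝ) ^ J := by positivity
    have h3 : ((2 * y / max 1 k.natAbs / R ^ J : ℕ) : ℝ) ≤
        (2 * y : ℝ) / ((max 1 k.natAbs : ℕ) : ℝ) / (R : ℝ) ^ J := by
      refine (Nat.cast_div_le).trans ?_
      push_cast
      apply div_le_div_of_nonneg_right _ hRJ.le
      refine (Nat.cast_div_le).trans ?_
      push_cast
      exact le_rfl
    have h5 : (V : ℝ) ^ J * (((2 * y / max 1 k.natAbs / R ^ J : ℕ) : ℝ)) ≤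
        ((V : ℝ) / R) ^ J * (2 * y) * (1 / ((max 1 k.natAbs : ℕ) : ℝ)) := by
      calc (V : ℝ) ^ J * (((2 * y / max 1 k.natAbs / R ^ J : ℕ) : ℝ)) ≤
          (V : ℝ) ^ J * ((2 * y : ℝ) / ((max 1 k.natAbs : ℕ) : ℝ) / (R : ℝ) ^ J) :=
            mul_le_mul_of_nonneg_left h3 (by positivity)
        _ = ((V : ℝ) / R) ^ J * (2 * y) * (1 / ((max 1 k.natAbs : ℕ) : ℝ)) := by
            have hm : (0 : ℝ) < ((max 1 k.natAbs : ℕ) : ℝ) := by
              have : 0 < max 1 k.natAbs := by omega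
              exact_mod_cast this
            rw [div_pow]
            field_simp
    have h6 := h5
    push_cast at h6 ⊢
    rw [mul_add, mul_one]
    linarith
  rw [sum_add_distrib, ← mul_sum, sum_inv, sum_const] at h2
  have hcard : (Icc (-((2 * K : ℕ) : ℤ)) ((2 * K : ℕ) : ℤ)).card = 4 * K + 1 := by
    rw [Int.card_Icc]; omega
  rw [hcard, nsmul_eq_mul] at h2
  have h7 := harm_le (2 * K)
  have hK1 : (1 : ℝ) ≤ K := by exact_mod_cast hK
  have hvR : (0 : ℝ) ≤ ((V : ℝ) / R) ^ J := by positivity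
  have h8 : ((4 * K + 1 : ℕ) : ℝ) * (V : ℝ) ^ J ≤ ((V : ℝ) / R) ^ J * (2 * y) := by
    have h4 : (V : ℝ) ^ J = ((V : ℝ) / R) ^ J * (R : ℝ) ^ J := by
      rw [← mul_pow]
      congr 1
      field_simp
    have h9 : (R : ℝ) ^ (J + 1) ≤ 2 * y := by exact_mod_cast hy
    rw [pow_succ] at h9
    have h10 : (4 * (K : ℝ) + 1) * (R : ℝ) ^ J ≤ 2 * y := by
      have h11 : 0 < (R : ℝ) ^ J := by positivity
      have h12 : (4 * (K : ℝ) + 1) ≤ R := by
        have : (8 * (K : ℝ)) ≤ R := by exact_mod_cast hR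
        linarith
      calc (4 * (K : ℝ) + 1) * (R : ℝ) ^ J ≤ R * (R : ℝ) ^ J :=
            mul_le_mul_of_nonneg_right h12 h11.le
        _ = (R : ℝ) ^ J * R := mul_comm _ _
        _ ≤ _ := h9
    rw [h4]
    push_cast
    calc (4 * (K : ℝ) + 1) * (((V : ℝ) / R) ^ J * (R : ℝ) ^ J) =
        ((V : ℝ) / R) ^ J * ((4 * (K : ℝ) + 1) * (R : ℝ) ^ J) := by ring
      _ ≤ ((V : ℝ) / R) ^ J * (2 * y) := mul_le_mul_of_nonneg_left h10 hvR
  have h13 : (0 : ℝ) ≤ ((V : ℝ) / R) ^ J * (2 * y) := by positivity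
  have h14 : ((V : ℝ) / R) ^ J * (2 * y) * (1 + 2 * ∑ i ∈ range (2 * K), (1 : ℝ) / ((i : ℝ) + 1)) ≤
      ((V : ℝ) / R) ^ J * (2 * y) * (3 + 2 * Real.log ((2 * K : ℕ) : ℝ)) :=
    mul_le_mul_of_nonneg_left (by linarith) h13
  linarith

/-- The average over the shift. -/
theorem shift {y : ℕ} (hy : 1 ≤ y) (S : Finset ℕ) (U : Finset ℤ) :
    ∃ s : ℕ, s < y ∧
      (S.filter (fun n : ℕ => (n : ℤ) - (s : ℤ) ∈ U)).card * y ≤ S.card * U.card := by
  classical
  by_contra hcon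
  push Not at hcon
  have h1 : ∑ _s ∈ range y, S.card * U.card < ∑ s ∈ range y,
      (S.filter (fun n : ℕ => (n : ℤ) - (s : ℤ) ∈ U)).card * y := by
    apply sum_lt_sum_of_nonempty
    · exact ⟨0, mem_range.mpr (by omega)⟩
    · intro s hs
      exact hcon s (mem_range.mp hs)
  have h2 : ∑ s ∈ range y, (S.filter (fun n : ℕ => (n : ℤ) - (s : ℤ) ∈ U)).card =
      ∑ n ∈ S, ((range y).filter (fun s : ℕ => (n : ℤ) - (s : ℤ) ∈ U)).card := by
    simp only [card_filter]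
    rw [sum_comm]
  have h3 : ∀ n ∈ S, ((range y).filter (fun s : ℕ => (n : ℤ) - (s : ℤ) ∈ U)).card ≤
      U.card := by
    intro n _
    apply card_le_card_of_injOn (fun s : ℕ => (n : ℤ) - (s : ℤ))
    · intro s hs
      exact (mem_filter.mp hs).2
    · intro a _ b _ hab
      simp only at hab
      omega
  have h4 : ∑ s ∈ range y, (S.filter (fun n : ℕ => (n : ℤ) - (s : ℤ) ∈ U)).card ≤
      S.card * U.card := by
    rw [h2]
    refine (sum_le_sum h3).trans ?_
    rw [sum_const, smul_eq_mul]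
  have h5 : (∑ s ∈ range y, (S.filter (fun n : ℕ => (n : ℤ) - (s : ℤ) ∈ U)).card) * y ≤
      S.card * U.card * y := Nat.mul_le_mul_right _ h4
  have h6 : ∑ _s ∈ range y, S.card * U.card = S.card * U.card * y := by
    rw [sum_const, card_range, smul_eq_mul, mul_comm]
  rw [h6, ← sum_mul] at h1
  exact absurd h5 (not_le.mpr h1)

end RHC
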