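import Pool.Agent.H58.RHC.Asy
import Pool.Agent.H85.RHC.Cmp2

/-!
# All moduli above `y exp (- (log 2 - eps) log y / log log y)` are free on a given set
-/

set_option autoImplicit false

open Finset

namespace RHC

theorem V_le {L K : ℕ} (hL : 8 ≤ L) (hK : 1 ≤ K) {e : ℝ} (he : (4 : ℝ) / L ≤ e) :
    ((((L * K + 2 * K) / 2 + 1 : ℕ) : ℝ)) / ((L * K : ℕ) : ℝ) ≤
      Real.exp (-(Real.log 2 - e)) := by
  have hL0 : (0 : ℝ) < L := by
    have : 0 < L := by omega
    exact_mod_cast this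
  have hK1 : (1 : ℝ) ≤ K := by exact_mod_cast hK
  have hK0 : (0 : ℝ) < K := by linarith
  have h1 : ((((L * K + 2 * K) / 2 + 1 : ℕ) : ℝ)) ≤ (L * K + 2 * K : ℝ) / 2 + 1 := by
    rw [Nat.cast_add, Nat.cast_one]
    have := Nat.cast_div_le (α := ℝ) (m := L * K + 2 * K) (n := 2)
    push_cast at this
    linarith
  have h2 : ((((L * K + 2 * K) / 2 + 1 : ℕ) : ℝ)) / ((L * K : ℕ) : ℝ) ≤ (1 + 4 / L) / 2 := by
    rw [div_le_iff₀ (by push_cast; positivity)]
    refine h1.trans ?_
    push_cast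
    have h3 : (1 + 4 / (L : ℝ)) / 2 * (L * K) = L * K / 2 + 2 * K := by
      field_simp
      ring
    rw [h3]
    linarith
  refine h2.trans ?_
  have h4 : (1 : ℝ) + 4 / L ≤ Real.exp e := by
    have := Real.add_one_le_exp e
    linarith
  have h5 : Real.exp (-(Real.log 2 - e)) = Real.exp e / 2 := by
    rw [neg_sub, Real.exp_sub, Real.exp_log (by norm_num)]
  rw [h5]
  linarith

/-- **All large moduli are free on a given set.** -/
theorem free2 (eps : ℝ) (h : 0 < eps) (h1 : eps < Real.log 2) :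
    ∀ᶠ y : ℕ in Filter.atTop, ∀ S ⊆ Icc 1 y, ∃ D ⊆ S,
      (D.card : ℝ) * (Real.log (Real.log y)) ^ 2 ≤ S.card ∧
      ∀ q : ℕ, (y : ℝ) / Real.exp ((Real.log 2 - eps) * Real.log y / Real.log (Real.log y)) ≤ q →
        ∃ r : ℕ, ∀ n ∈ S, n ≡ r [MOD q] → n ∈ D := by
  have hl2 := Real.log_two_lt_d9
  set L : ℕ := ⌈16 / eps⌉₊ + 8 with hL
  have hL8 : 8 ≤ L := by omega
  have hL0 : (0 : ℝ) < L := by
    have : 0 < L := by omega
    exact_mod_cast this
  have hLe : (4 : ℝ) / L ≤ eps / 4 := by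
    rw [div_le_iff₀ hL0]
    have h2 : 16 / eps ≤ (L : ℝ) := by
      rw [hL]
      push_cast
      have := Nat.le_ceil (16 / eps)
      linarith
    rw [div_le_iff₀ h] at h2
    linarith
  set c : ℝ := Real.log (2 * L) with hc
  have hev : ∀ᶠ v : ℝ in Filter.atTop, 20 * v ^ 2 ≤ Real.exp (eps / 2 * v) := by
    have h2 := (isLittleO_pow_exp_pos_mul_atTop 2 (by linarith : 0 < eps / 2)).bound
      (c := 1 / 20) (by norm_num)
    filter_upwards [h2] with v hv
    rw [Real.norm_of_nonneg (sq_nonneg v), Real.norm_of_nonneg (Real.exp_pos _).le] at hv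
    linarith
  filter_upwards [ev_ll (4 / eps) c (by positivity), tendsto_log0.eventually_ge_atTop 16,
    (Real.tendsto_log_atTop.comp tendsto_log0).eventually_ge_atTop 2,
    (Real.tendsto_log_atTop.comp tendsto_log0).eventually hev,
    Filter.eventually_ge_atTop 3] with y h4 hu16 hv2 hv20 hy3 S hS
  simp only [Function.comp] at hv2 hv20
  set u : ℝ := Real.log (y : ℝ) with hu
  set v : ℝ := Real.log u with hv
  have hu0 : 0 < u := by linarith
  have hv0 : 0 < v := by linarith
  have hy0 : (0 : ℝ) < y := by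
    have : 0 < y := by omega
    exact_mod_cast this
  have huexp : Real.exp v = u := Real.exp_log hu0
  set t : ℝ := (Real.log 2 - eps) * u / v with ht
  have ht0 : 0 ≤ t := by
    have : 0 ≤ Real.log 2 - eps := by linarith
    positivity
  have htu : t ≤ u / 2 := by
    rw [ht, div_le_iff₀ hv0]
    nlinarith
  set T : ℝ := Real.exp t with hT
  have hT0 : 0 < T := Real.exp_pos _
  have hT1 : 1 ≤ T := Real.one_le_exp ht0
  set K : ℕ := ⌈T⌉₊ with hK
  have hKT : T ≤ K := Nat.le_ceil T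
  have hKT2 : (K : ℝ) ≤ 2 * T := by
    have := (Nat.ceil_lt_add_one hT0.le).le
    linarith
  have hK1R : (1 : ℝ) ≤ K := by linarith
  have hK1 : 1 ≤ K := by exact_mod_cast hK1R
  have hR2 : 2 ≤ L * K := by nlinarith
  have hlogR : Real.log ((L * K : ℕ) : ℝ) ≤ c + t := by
    have h5 : ((L * K : ℕ) : ℝ) ≤ 2 * L * T := by push_cast; nlinarith
    calc Real.log ((L * K : ℕ) : ℝ) ≤ Real.log (2 * L * T) :=
          Real.log_le_log (by push_cast; positivity) h5
      _ = c + t := by rw [Real.log_mul (by positivity) hT0.ne', hT, Real.log_exp]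
  set β : ℝ := Real.log 2 - 3 * eps / 4 with hβ
  have hβ0 : 0 < β := by linarith
  have hct : c + t ≤ β * (u / v) := by
    have h5 : u / (4 / eps * v) = eps / 4 * (u / v) := by field_simp
    rw [h5] at h4
    have h6 : t = (Real.log 2 - eps) * (u / v) := by rw [ht]; ring
    rw [h6, hβ]
    linarith
  -- the number of digits
  set J1 : ℕ := Nat.log (L * K) (2 * y) with hJ1
  have hb1 : (L * K) ^ J1 ≤ 2 * y := Nat.pow_log_le_self _ (by omega)
  have hb2 : 2 * y < (L * K) ^ (J1 + 1) := Nat.lt_pow_succ_log_self (by omega) _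
  have hJ1' : v < ((J1 : ℝ) + 1) * β := by
    have h5 : u < ((J1 : ℝ) + 1) * Real.log ((L * K : ℕ) : ℝ) := by
      have h6 : (y : ℝ) < (((L * K : ℕ) : ℝ)) ^ (J1 + 1) := by
        have h7 : (2 * (y : ℝ)) < (((L * K : ℕ) : ℝ)) ^ (J1 + 1) := by exact_mod_cast hb2
        linarith
      have h8 := Real.log_lt_log hy0 h6
      rw [Real.log_pow] at h8
      push_cast at h8 ⊢
      exact h8
    have h6 : u < ((J1 : ℝ) + 1) * (β * (u / v)) :=
      h5.trans_le (mul_le_mul_of_nonneg_left (hlogR.trans hct) (by positivity))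
    have h7 : ((J1 : ℝ) + 1) * (β * (u / v)) = u * (((J1 : ℝ) + 1) * β / v) := by
      field_simp
    rw [h7] at h6
    have h8 : 1 < ((J1 : ℝ) + 1) * β / v := by
      by_contra hcon
      push Not at hcon
      have := mul_le_mul_of_nonneg_left hcon hu0.le
      linarith
    rwa [one_lt_div hv0] at h8
  have hJpos : 1 ≤ J1 := by
    by_contra hcon
    have h5 : J1 = 0 := by omega
    rw [h5] at hJ1'
    push_cast at hJ1'
    linarith
  obtain ⟨J, hJ⟩ : ∃ J, J1 = J + 1 := ⟨J1 - 1, by omega⟩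
  have hJ' : v < ((J : ℝ) + 2) * β := by
    rw [hJ] at hJ1'
    push_cast at hJ1'
    linarith
  have hyJ : (L * K) ^ (J + 1) ≤ 2 * y := by rw [← hJ]; exact hb1
  -- the size of `UZ`
  set α : ℝ := Real.log 2 - eps / 4 with hα
  have hα0 : 0 < α := by linarith
  have hαJ : (1 + eps / 2) * v - 2 * Real.log 2 ≤ α * J := by
    have h5 : (1 + eps / 2) * β ≤ α := by
      rw [hβ, hα]; nlinarith
    have h6 : (1 + eps / 2) * v ≤ (1 + eps / 2) * (((J : ℝ) + 2) * β) :=
      mul_le_mul_of_nonneg_left hJ'.le (by positivity)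
    have h7 : (1 + eps / 2) * (((J : ℝ) + 2) * β) ≤ α * ((J : ℝ) + 2) := by
      have : (0 : ℝ) ≤ (J : ℝ) + 2 := by positivity
      nlinarith
    have h8 : α ≤ Real.log 2 := by rw [hα]; linarith
    linarith
  have hVR := V_le hL8 hK1 hLe
  set V : ℕ := (L * K + 2 * K) / 2 + 1 with hV
  have hcard := UZ_card (R := L * K) (K := K) (J := J) (y := y) (V := V) hK1
    (Nat.mul_le_mul_right K hL8) le_rfl hyJ
  have hpow : ((V : ℝ) / ((L * K : ℕ) : ℝ)) ^ J ≤ 4 * Real.exp (-((1 + eps / 2) * v)) := by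
    calc ((V : ℝ) / ((L * K : ℕ) : ℝ)) ^ J ≤ (Real.exp (-α)) ^ J :=
          pow_le_pow_left₀ (by positivity) hVR J
      _ = Real.exp (-(α * J)) := by rw [← Real.exp_nat_mul]; congr 1; ring
      _ ≤ Real.exp (2 * Real.log 2 + -((1 + eps / 2) * v)) :=
          Real.exp_le_exp.mpr (by linarith)
      _ = 4 * Real.exp (-((1 + eps / 2) * v)) := by
          rw [Real.exp_add]
          congr 1
          rw [show (2 : ℝ) * Real.log 2 = Real.log 2 + Real.log 2 by ring, Real.exp_add,
            Real.exp_log (by norm_num)]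
          norm_num
  have hlogK : 8 + 4 * Real.log ((2 * K : ℕ) : ℝ) ≤ 5 * u := by
    have h5 : Real.log ((2 * K : ℕ) : ℝ) ≤ Real.log (4 * T) := by
      apply Real.log_le_log (by push_cast; linarith)
      push_cast
      linarith
    rw [Real.log_mul (by norm_num) hT0.ne', hT, Real.log_exp] at h5
    have h6 : Real.log 4 = 2 * Real.log 2 := by
      rw [show (4 : ℝ) = 2 ^ 2 by norm_num, Real.log_pow]; norm_num
    rw [h6] at h5
    linarith
  have hUZ : ((UZ (L * K) K J y).card : ℝ) * v ^ 2 ≤ y := by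
    have h5 : ((UZ (L * K) K J y).card : ℝ) ≤
        4 * Real.exp (-((1 + eps / 2) * v)) * y * (5 * u) := by
      refine hcard.trans ?_
      have h6 : 0 ≤ 8 + 4 * Real.log ((2 * K : ℕ) : ℝ) := by
        have := Real.log_natCast_nonneg (2 * K)
        linarith
      gcongr
    have h6 : Real.exp (-((1 + eps / 2) * v)) * u = Real.exp (-(eps / 2 * v)) := by
      have h9 : Real.exp (-((1 + eps / 2) * v)) * Real.exp v = Real.exp (-(eps / 2 * v)) := by
        rw [← Real.exp_add]
        congr 1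
        ring
      rwa [huexp] at h9
    have h7 : ((UZ (L * K) K J y).card : ℝ) ≤ 20 * Real.exp (-(eps / 2 * v)) * y := by
      refine h5.trans (le_of_eq ?_)
      rw [← h6]
      ring
    have h8 : Real.exp (-(eps / 2 * v)) * Real.exp (eps / 2 * v) = 1 := by
      rw [← Real.exp_add]; simp
    calc ((UZ (L * K) K J y).card : ℝ) * v ^ 2 ≤
        20 * Real.exp (-(eps / 2 * v)) * y * v ^ 2 :=
          mul_le_mul_of_nonneg_right h7 (sq_nonneg _)
      _ = Real.exp (-(eps / 2 * v)) * y * (20 * v ^ 2) := by ring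
      _ ≤ Real.exp (-(eps / 2 * v)) * y * Real.exp (eps / 2 * v) :=
          mul_le_mul_of_nonneg_left hv20 (by positivity)
      _ = y := by rw [mul_right_comm, h8, one_mul]
  obtain ⟨s, hs, hsc⟩ := shift (y := y) (by omega) S (UZ (L * K) K J y)
  refine ⟨S.filter (fun n : ℕ => (n : ℤ) - (s : ℤ) ∈ UZ (L * K) K J y), filter_subset _ _, ?_, ?_⟩
  · have h5 : (((S.filter (fun n : ℕ => (n : ℤ) - (s : ℤ) ∈ UZ (L * K) K J y)).card : ℝ)) * y ≤
        S.card * (UZ (L * K) K J y).card := by exact_mod_cast hsc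
    have h6 : (((S.filter (fun n : ℕ => (n : ℤ) - (s : ℤ) ∈ UZ (L * K) K J y)).card : ℝ)) *
        v ^ 2 * y ≤ S.card * y := by
      calc _ = (((S.filter (fun n : ℕ => (n : ℤ) - (s : ℤ) ∈ UZ (L * K) K J y)).card : ℝ)) *
            y * v ^ 2 := by ring
        _ ≤ S.card * (UZ (L * K) K J y).card * v ^ 2 :=
            mul_le_mul_of_nonneg_right h5 (sq_nonneg _)
        _ = S.card * ((UZ (L * K) K J y).card * v ^ 2) := by ring
        _ ≤ S.card * y := mul_le_mul_of_nonneg_left hUZ (Nat.cast_nonneg _)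
    exact le_of_mul_le_mul_right h6 hy0
  · intro q hq
    have hyq : y ≤ K * q := by
      rw [div_le_iff₀ hT0] at hq
      have h2 : (0 : ℝ) ≤ q := Nat.cast_nonneg _
      have h3 : (y : ℝ) ≤ K * q := by nlinarith
      exact_mod_cast h3
    by_cases hqy : q ≤ y
    · refine ⟨xx (L * K) J q + s, fun n hn hm => ?_⟩
      rw [mem_filter]
      exact ⟨hn, UZ_class hR2 hyJ hyq hqy hs (hS hn) hm⟩
    · refine ⟨0, fun n hn hm => ?_⟩
      exfalso
      have h5 := mem_Icc.mp (hS hn)
      have h6 := Nat.le_of_dvd (by omega) ((Nat.modEq_zero_iff_dvd).mp hm)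
      omega

end RHC
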