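import Pool.Agent.H58.RHC.Asy

/-!
# All moduli above `y ^ (1 - c / log log y)` are free: the reduction
-/

set_option autoImplicit false

open Finset Real

namespace RHC

/-- The two forms of the threshold. -/
theorem thr (A : ℝ) {y : ℕ} (hy : 3 ≤ y) :
    (y : ℝ) / TA A y = (y : ℝ) ^ (1 - 1 / A / Real.log (Real.log y)) := by
  have hy0 : (0 : ℝ) < y := by
    have : 0 < y := by omega
    exact_mod_cast this
  unfold TA
  rw [Real.rpow_def_of_pos hy0]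
  conv_lhs => rw [← Real.exp_log hy0]
  rw [Real.log_exp, ← Real.exp_sub]
  congr 1
  rw [mul_sub, mul_one, div_div, mul_one_div]

/-- All large moduli are free, and the reduction of admissible sets to small primes. -/
theorem red (B : ℝ) : ∃ c : ℝ, 0 < c ∧ ∃ Y : ℕ, ∀ y : ℕ, Y ≤ y →
    (∃ U : Finset ℕ, U ⊆ Finset.Icc 1 y ∧ (U.card : ℝ) ≤ y / (Real.log y) ^ B ∧
      ∀ q : ℕ, (y : ℝ) ^ (1 - c / Real.log (Real.log y)) ≤ q →
        ∃ r : ℕ, ∀ n ∈ Finset.Icc 1 y, n ≡ r [MOD q] → n ∈ U) ∧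
    ∀ S : Finset ℕ, S ⊆ Finset.Icc 1 y →
      (∀ p : ℕ, p.Prime → (p : ℝ) < (y : ℝ) ^ (1 - c / Real.log (Real.log y)) →
        ∃ r : ℕ, ∀ a ∈ S, ¬ a ≡ r [MOD p]) →
      ∃ A : Finset ℕ, A ⊆ S ∧
        (∀ p : ℕ, p.Prime → ∃ r : ℕ, ∀ a ∈ A, ¬ a ≡ r [MOD p]) ∧
        (∀ q : ℕ, (y : ℝ) ^ (1 - c / Real.log (Real.log y)) ≤ q →
          ∃ r : ℕ, ∀ a ∈ A, ¬ a ≡ r [MOD q]) ∧
        (S.card : ℝ) - y / (Real.log y) ^ B ≤ A.card := by
  classical
  obtain ⟨A, hA, hf⟩ := free B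
  refine ⟨1 / A, by positivity, ?_⟩
  obtain ⟨Y, hY⟩ := Filter.eventually_atTop.1 (hf.and (Filter.eventually_ge_atTop 3))
  refine ⟨Y, ?_⟩
  intro y hy
  obtain ⟨⟨U, hU, hUc, hq⟩, hy3⟩ := hY y hy
  rw [thr A hy3] at hq
  refine ⟨⟨U, hU, hUc, hq⟩, ?_⟩
  intro S hS hp
  have hlarge : ∀ q : ℕ, (y : ℝ) ^ (1 - 1 / A / Real.log (Real.log y)) ≤ q →
      ∃ r : ℕ, ∀ a ∈ S \ U, ¬ a ≡ r [MOD q] := by
    intro q hqy
    obtain ⟨r, hr⟩ := hq q hqy
    refine ⟨r, fun a ha har => ?_⟩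
    rw [Finset.mem_sdiff] at ha
    exact ha.2 (hr a (hS ha.1) har)
  refine ⟨S \ U, Finset.sdiff_subset, ?_, hlarge, ?_⟩
  · intro p hpp
    rcases lt_or_ge (p : ℝ) ((y : ℝ) ^ (1 - 1 / A / Real.log (Real.log y))) with h | h
    · obtain ⟨r, hr⟩ := hp p hpp h
      exact ⟨r, fun a ha => hr a (Finset.mem_sdiff.1 ha).1⟩
    · exact hlarge p h
  · have h1 : S.card ≤ (S \ U).card + U.card := by
      have h2 := Finset.card_le_card (show S ⊆ (S \ U) ∪ U from by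
        intro a ha
        rw [Finset.mem_union, Finset.mem_sdiff]
        by_cases h : a ∈ U
        · exact Or.inr h
        · exact Or.inl ⟨ha, h⟩)
      exact h2.trans (Finset.card_union_le _ _)
    have h3 : (S.card : ℝ) ≤ (S \ U).card + U.card := by exact_mod_cast h1
    linarith

end RHC
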